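import Pool.Agent.Work.MP_6f78fb_rk_helper27.Transfer

/-!
# Block TRS: transposition
-/

set_option autoImplicit false

open scoped BigOperators TensorProduct
open Classical

noncomputable section

namespace Pool.RookLC.helper27

theorem UZ_swap {n m r : ℕ} {M : Fin n × Fin m → ℂ} (hM : M ∈ UZ n m r) :
    M ∘ Prod.swap ∈ UZ m n r := by
  obtain ⟨⟨h0, h1, h2⟩, hr⟩ := hM
  refine ⟨⟨fun p => h0 _, fun a j j' hj hj' => ?_, fun a a' j ha ha' => ?_⟩, ?_⟩
  · exact h2 j j' a hj hj'
  · exact h1 j a a' ha ha'
  · refine hr.trans (le_of_eq ?_)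
    refine Finset.card_bij (fun p _ => p.swap) ?_ ?_ ?_
    · intro p hp
      rw [Finset.mem_filter] at hp ⊢
      exact ⟨Finset.mem_univ _, by simpa using hp.2⟩
    · intro p _ q _ h
      exact Prod.swap_injective h
    · rintro p hp
      rw [Finset.mem_filter] at hp
      refine ⟨p.swap, ?_, ?_⟩
      · rw [Finset.mem_filter]
        exact ⟨Finset.mem_univ _, hp.2⟩
      · simp

theorem grI_swap (n m r : ℕ) : grI (UZ n m r) ≤
    (grI (UZ m n r)).comap (MvPolynomial.rename (R := ℂ) (Prod.swap : Fin n × Fin m → _)) :=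
  grI_rename Prod.swap_injective fun _ hM => UZ_swap hM

theorem swap_swap' (n m : ℕ) (f : Poly n m) :
    MvPolynomial.rename (Prod.swap : Fin m × Fin n → _)
      (MvPolynomial.rename (Prod.swap : Fin n × Fin m → _) f) = f := by
  rw [MvPolynomial.rename_rename, Prod.swap_swap_eq, MvPolynomial.rename_id_apply]

theorem stmt_TRS : Stmt_TRS := by
  intro n m r i hS
  refine transfer (MvPolynomial.rename (R := ℂ) (Prod.swap : Fin n × Fin m → Fin m × Fin n))
    (fun d f hf => hf.rename_isHomogeneous) (grI_swap n m r) ?_ ?_ (fun g => (g.2, g.1)) ?_ hS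
  · intro d f _ hf
    have h := grI_swap m n r hf
    rw [Ideal.mem_comap] at h
    change MvPolynomial.rename (Prod.swap : Fin m × Fin n → _)
      (MvPolynomial.rename (Prod.swap : Fin n × Fin m → _) f) ∈ _ at h
    rwa [swap_swap'] at h
  · intro d f' hf'
    refine ⟨MvPolynomial.rename (Prod.swap : Fin m × Fin n → _) f', hf'.rename_isHomogeneous, ?_⟩
    rw [swap_swap', sub_self]
    exact Ideal.zero_mem _
  · intro g f
    unfold actP
    rw [MvPolynomial.rename_rename, MvPolynomial.rename_rename]
    rfl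

end Pool.RookLC.helper27
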