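import Pool.Agent.Work.MP_6f78fb_rk_helper27.Transfer

/-!
# Block NEAR: restriction from a board with one more row
-/

set_option autoImplicit false

open scoped BigOperators TensorProduct
open Classical

noncomputable section

namespace Pool.RookLC.helper27

variable {n m : ℕ}

/-- the embedding of the small board -/
def emb (n m : ℕ) (p : Fin n × Fin m) : Fin (n + 1) × Fin m := (p.1.castSucc, p.2)

theorem emb_inj : Function.Injective (emb n m) := by
  rintro ⟨a, j⟩ ⟨b, k⟩ h
  simp only [emb, Prod.mk.injEq, Fin.castSucc_inj] at h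
  exact Prod.ext h.1 h.2

/-- the cells with a rook -/
def rk (M : Fin n × Fin m → ℂ) : Finset (Fin n × Fin m) := Finset.univ.filter fun p => M p = 1

theorem mem_rk {M : Fin n × Fin m → ℂ} {p : Fin n × Fin m} : p ∈ rk M ↔ M p = 1 := by
  unfold rk
  simp

theorem rk_inj {M : Fin n × Fin m → ℂ} (hM : IsRook M) :
    Set.InjOn (Prod.snd : Fin n × Fin m → Fin m) (rk M : Set (Fin n × Fin m)) := by
  rintro ⟨a, j⟩ hp ⟨b, k⟩ hq h
  rw [Finset.mem_coe, mem_rk] at hp hq
  simp only at h
  subst h
  rw [hM.2.2 a b j hp hq]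

/-- restriction of a full placement -/
theorem UZ_res {M : Fin (n + 1) × Fin m → ℂ} (hM : M ∈ UZ (n + 1) m m) :
    M ∘ emb n m ∈ UZ n m (m - 1) := by
  obtain ⟨⟨h0, h1, h2⟩, hr⟩ := hM
  refine ⟨⟨fun p => h0 _, fun a j j' hj hj' => h1 _ _ _ hj hj', fun a a' j ha ha' => ?_⟩, ?_⟩
  · exact Fin.castSucc_injective n (h2 _ _ _ ha ha')
  · change m ≤ (rk M).card at hr
    change m - 1 ≤ (rk (M ∘ emb n m)).card
    have h3 : rk M ⊆ (rk (M ∘ emb n m)).image (emb n m)
        ∪ (rk M).filter (fun p => p.1 = Fin.last n) := by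
      rintro ⟨a, j⟩ hp
      rw [Finset.mem_union]
      by_cases ha : a = Fin.last n
      · right
        rw [Finset.mem_filter]
        exact ⟨hp, ha⟩
      · left
        rw [Finset.mem_image]
        refine ⟨(a.castPred ha, j), ?_, ?_⟩
        · rw [mem_rk] at hp ⊢
          simpa [emb] using hp
        · simp [emb]
    have h4 : ((rk M).filter (fun p => p.1 = Fin.last n)).card ≤ 1 := by
      rw [Finset.card_le_one]
      rintro ⟨a, j⟩ hp ⟨b, k⟩ hq
      rw [Finset.mem_filter, mem_rk] at hp hq
      obtain ⟨hp1, hp2⟩ := hp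
      obtain ⟨hq1, hq2⟩ := hq
      simp only at hp2 hq2
      subst hp2 hq2
      rw [h1 _ _ _ hp1 hq1]
    have h5 := Finset.card_le_card h3
    have h6 := Finset.card_union_le ((rk (M ∘ emb n m)).image (emb n m))
      ((rk M).filter (fun p => p.1 = Fin.last n))
    have h7 : ((rk (M ∘ emb n m)).image (emb n m)).card ≤ (rk (M ∘ emb n m)).card :=
      Finset.card_image_le
    omega

/-- completion of a placement by a last row -/
def ext1 (M : Fin n × Fin m → ℂ) (p : Fin (n + 1) × Fin m) : ℂ :=
  if h : p.1 = Fin.last n then 1 - ∑ a, M (a, p.2) else M (p.1.castPred h, p.2)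

theorem ext1_last (M : Fin n × Fin m → ℂ) (j : Fin m) :
    ext1 M (Fin.last n, j) = 1 - ∑ a, M (a, j) := by
  simp [ext1]

theorem ext1_castSucc (M : Fin n × Fin m → ℂ) (a : Fin n) (j : Fin m) :
    ext1 M (a.castSucc, j) = M (a, j) := by
  have h : a.castSucc ≠ Fin.last n := Fin.castSucc_ne_last a
  simp [ext1, h]

/-- column sum of a placement -/
theorem col_sum {M : Fin n × Fin m → ℂ} (hM : IsRook M) (j : Fin m) :
    (∃ a, M (a, j) = 1) ∧ ∑ a, M (a, j) = 1 ∨ (∀ a, M (a, j) = 0) ∧ ∑ a, M (a, j) = 0 := by
  by_cases h : ∃ a, M (a, j) = 1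
  · left
    refine ⟨h, ?_⟩
    obtain ⟨a, ha⟩ := h
    rw [Finset.sum_eq_single a, ha]
    · intro b _ hb
      rcases hM.1 (b, j) with h0 | h0
      · exact h0
      · exact absurd (hM.2.2 _ _ _ h0 ha) hb
    · intro h
      exact absurd (Finset.mem_univ a) h
  · right
    have h1 : ∀ a, M (a, j) = 0 := fun a => (hM.1 (a, j)).resolve_right fun h0 => h ⟨a, h0⟩
    exact ⟨h1, Finset.sum_eq_zero fun a _ => h1 a⟩

theorem col_sum_full {M : Fin n × Fin m → ℂ} (hM : M ∈ UZ n m m) (j : Fin m) :
    ∑ a, M (a, j) = 1 := by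
  rcases col_sum hM.1 j with h | h
  · exact h.2
  · exfalso
    have hr := hM.2
    change m ≤ (rk M).card at hr
    have h1 : ((rk M).image Prod.snd).card = (rk M).card :=
      Finset.card_image_of_injOn (rk_inj hM.1)
    have h2 : (rk M).image Prod.snd ⊆ Finset.univ.erase j := by
      intro k hk
      rw [Finset.mem_image] at hk
      obtain ⟨⟨a, l⟩, hp, rfl⟩ := hk
      rw [Finset.mem_erase]
      refine ⟨fun hl => ?_, Finset.mem_univ _⟩
      rw [mem_rk] at hp
      simp only at hl
      subst hl
      rw [h.1 a] at hp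
      exact zero_ne_one hp
    have h3 := Finset.card_le_card h2
    rw [Finset.card_erase_of_mem (Finset.mem_univ j), Finset.card_univ, Fintype.card_fin] at h3
    have h4 := j.isLt
    omega

theorem UZ_ext {M : Fin n × Fin m → ℂ} (hm : 1 ≤ m) (hM : M ∈ UZ n m (m - 1)) :
    ext1 M ∈ UZ (n + 1) m m := by
  obtain ⟨hR, hr⟩ := hM
  change m - 1 ≤ (rk M).card at hr
  -- at most one column is empty
  have hcol : ∀ j j' : Fin m, (∀ a, M (a, j) = 0) → (∀ a, M (a, j') = 0) → j = j' := by
    intro j j' hj hj'
    by_contra hne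
    have h1 : ((rk M).image Prod.snd).card = (rk M).card :=
      Finset.card_image_of_injOn (rk_inj hR)
    have h2 : (rk M).image Prod.snd ⊆ (Finset.univ.erase j).erase j' := by
      intro k hk
      rw [Finset.mem_image] at hk
      obtain ⟨⟨a, l⟩, hp, rfl⟩ := hk
      rw [mem_rk] at hp
      rw [Finset.mem_erase, Finset.mem_erase]
      refine ⟨fun hl => ?_, fun hl => ?_, Finset.mem_univ _⟩
      · simp only at hl
        subst hl
        rw [hj' a] at hp
        exact zero_ne_one hp
      · simp only at hl
        subst hl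
        rw [hj a] at hp
        exact zero_ne_one hp
    have h3 := Finset.card_le_card h2
    rw [Finset.card_erase_of_mem (Finset.mem_erase.2 ⟨Ne.symm hne, Finset.mem_univ _⟩),
      Finset.card_erase_of_mem (Finset.mem_univ j), Finset.card_univ, Fintype.card_fin] at h3
    have h4 := j.isLt
    have h5 := j'.isLt
    have h6 : (j : ℕ) ≠ (j' : ℕ) := fun h => hne (Fin.ext h)
    omega
  have hlast : ∀ j, (ext1 M (Fin.last n, j) = 0 ∧ ∃ a, M (a, j) = 1) ∨
      (ext1 M (Fin.last n, j) = 1 ∧ ∀ a, M (a, j) = 0) := by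
    intro j
    rw [ext1_last]
    rcases col_sum hR j with h | h
    · left
      rw [h.2, sub_self]
      exact ⟨rfl, h.1⟩
    · right
      rw [h.2, sub_zero]
      exact ⟨rfl, h.1⟩
  have hrook : IsRook (ext1 M) := by
    refine ⟨?_, ?_, ?_⟩
    · rintro ⟨a, j⟩
      induction a using Fin.lastCases with
      | last =>
        rcases hlast j with h | h
        · exact Or.inl h.1
        · exact Or.inr h.1
      | cast a =>
        rw [ext1_castSucc]
        exact hR.1 _
    · intro a j j' h1 h2
      induction a using Fin.lastCases with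
      | last =>
        rcases hlast j with h | h
        · rw [h.1] at h1
          exact absurd h1 zero_ne_one
        · rcases hlast j' with h' | h'
          · rw [h'.1] at h2
            exact absurd h2 zero_ne_one
          · exact hcol j j' h.2 h'.2
      | cast a =>
        rw [ext1_castSucc] at h1 h2
        exact hR.2.1 a j j' h1 h2
    · intro a a' j h1 h2
      induction a using Fin.lastCases with
      | last =>
        induction a' using Fin.lastCases with
        | last => rfl
        | cast a' =>
          exfalso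
          rw [ext1_castSucc] at h2
          rcases hlast j with h | h
          · rw [h.1] at h1
            exact zero_ne_one h1
          · rw [h.2 a'] at h2
            exact zero_ne_one h2
      | cast a =>
        rw [ext1_castSucc] at h1
        induction a' using Fin.lastCases with
        | last =>
          exfalso
          rcases hlast j with h | h
          · rw [h.1] at h2
            exact zero_ne_one h2
          · rw [h.2 a] at h1
            exact zero_ne_one h1
        | cast a' =>
          rw [ext1_castSucc] at h2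
          rw [hR.2.2 a a' j h1 h2]
  refine ⟨hrook, ?_⟩
  change m ≤ (rk (ext1 M)).card
  have hex : ∀ j, ∃ b, ext1 M (b, j) = 1 := by
    intro j
    rcases hlast j with h | h
    · obtain ⟨a, ha⟩ := h.2
      exact ⟨a.castSucc, by rw [ext1_castSucc]; exact ha⟩
    · exact ⟨Fin.last n, h.1⟩
  choose b hb using hex
  have h1 : (Finset.univ.image fun j => (b j, j)).card = m := by
    rw [Finset.card_image_of_injective _ (fun j k h => (Prod.ext_iff.1 h).2), Finset.card_univ,
      Fintype.card_fin]
  have h2 : (Finset.univ.image fun j => (b j, j)) ⊆ rk (ext1 M) := by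
    intro p hp
    rw [Finset.mem_image] at hp
    obtain ⟨j, -, rfl⟩ := hp
    rw [mem_rk]
    exact hb j
  have h3 := Finset.card_le_card h2
  omega

/-- substitution of the last row -/
def sub1 (n m : ℕ) (c : ℂ) (p : Fin (n + 1) × Fin m) : Poly n m :=
  if h : p.1 = Fin.last n then MvPolynomial.C c - ∑ a, MvPolynomial.X (a, p.2)
  else MvPolynomial.X (p.1.castPred h, p.2)

theorem sub1_last (c : ℂ) (j : Fin m) :
    sub1 n m c (Fin.last n, j) = MvPolynomial.C c - ∑ a, MvPolynomial.X (a, j) := by
  simp [sub1]

theorem sub1_castSucc (c : ℂ) (a : Fin n) (j : Fin m) :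
    sub1 n m c (a.castSucc, j) = MvPolynomial.X (a, j) := by
  have h : a.castSucc ≠ Fin.last n := Fin.castSucc_ne_last a
  simp [sub1, h]

/-- the substitution homomorphism -/
def pi1 (n m : ℕ) (c : ℂ) : Poly (n + 1) m →ₐ[ℂ] Poly n m := MvPolynomial.aeval (sub1 n m c)

theorem pi1_rename (c : ℂ) (f : Poly n m) : pi1 n m c (MvPolynomial.rename (emb n m) f) = f := by
  have h : (pi1 n m c).comp (MvPolynomial.rename (R := ℂ) (emb n m)) = AlgHom.id ℂ _ := by
    refine MvPolynomial.algHom_ext fun p => ?_
    obtain ⟨a, j⟩ := p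
    rw [AlgHom.comp_apply, MvPolynomial.rename_X, pi1, MvPolynomial.aeval_X, AlgHom.id_apply]
    exact sub1_castSucc c a j
  exact congrArg (fun F : Poly n m →ₐ[ℂ] Poly n m => F f) h

theorem eval_pi1 (M : Fin n × Fin m → ℂ) (q : Poly (n + 1) m) :
    MvPolynomial.eval M (pi1 n m 1 q) = MvPolynomial.eval (ext1 M) q := by
  have h : (MvPolynomial.aeval (R := ℂ) M).comp (pi1 n m 1)
      = MvPolynomial.aeval (R := ℂ) (ext1 M) := by
    refine MvPolynomial.algHom_ext fun p => ?_
    obtain ⟨a, j⟩ := p
    rw [AlgHom.comp_apply, pi1, MvPolynomial.aeval_X, MvPolynomial.aeval_X]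
    induction a using Fin.lastCases with
    | last =>
      rw [sub1_last, ext1_last]
      simp
    | cast a =>
      rw [sub1_castSucc, ext1_castSucc, MvPolynomial.aeval_X]
  have h2 := congrArg (fun F : Poly (n + 1) m →ₐ[ℂ] ℂ => F q) h
  simpa [MvPolynomial.coe_aeval_eq_eval] using h2

theorem totalDegree_aeval_le {σ τ : Type*} (g : σ → MvPolynomial τ ℂ)
    (hg : ∀ i, (g i).totalDegree ≤ 1) (q : MvPolynomial σ ℂ) :
    (MvPolynomial.aeval g q).totalDegree ≤ q.totalDegree := by
  conv_lhs => rw [q.as_sum, map_sum]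
  refine MvPolynomial.totalDegree_finsetSum_le fun s hs => ?_
  rw [MvPolynomial.aeval_monomial]
  refine (MvPolynomial.totalDegree_mul _ _).trans ?_
  rw [MvPolynomial.algebraMap_eq, MvPolynomial.totalDegree_C, zero_add]
  refine (MvPolynomial.totalDegree_finsetProd _ _).trans ?_
  refine le_trans ?_ (MvPolynomial.le_totalDegree hs)
  refine Finset.sum_le_sum fun i _ => ?_
  refine (MvPolynomial.totalDegree_pow _ _).trans ?_
  calc s i * (g i).totalDegree ≤ s i * 1 := Nat.mul_le_mul_left _ (hg i)
    _ = s i := Nat.mul_one _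

theorem sub1_hom (p : Fin (n + 1) × Fin m) : (sub1 n m 0 p).IsHomogeneous 1 := by
  obtain ⟨a, j⟩ := p
  induction a using Fin.lastCases with
  | last =>
    rw [sub1_last, MvPolynomial.C_0, zero_sub]
    refine MvPolynomial.IsHomogeneous.neg ?_
    exact MvPolynomial.IsHomogeneous.sum _ _ _ fun a _ => MvPolynomial.isHomogeneous_X _ _
  | cast a =>
    rw [sub1_castSucc]
    exact MvPolynomial.isHomogeneous_X _ _

theorem sub1_deg (p : Fin (n + 1) × Fin m) : (sub1 n m 1 p).totalDegree ≤ 1 := by
  obtain ⟨a, j⟩ := p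
  induction a using Fin.lastCases with
  | last =>
    rw [sub1_last]
    refine (MvPolynomial.totalDegree_sub _ _).trans (max_le ?_ ?_)
    · rw [MvPolynomial.totalDegree_C]
      exact Nat.zero_le _
    · refine MvPolynomial.totalDegree_finsetSum_le fun a _ => ?_
      rw [MvPolynomial.totalDegree_X]
  | cast a =>
    rw [sub1_castSucc, MvPolynomial.totalDegree_X]

/-- the sum of the variables of a column -/
theorem col_mem (hRG : Stmt_RG) (j : Fin m) :
    (∑ b : Fin (n + 1), MvPolynomial.X (b, j) : Poly (n + 1) m) ∈ grI (UZ (n + 1) m m) := by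
  rw [hRG (n + 1) m (UZ (n + 1) m m) 1 _
    (MvPolynomial.IsHomogeneous.sum _ _ _ fun a _ => MvPolynomial.isHomogeneous_X _ _)]
  refine ⟨-1, Or.inr ?_, ?_⟩
  · rw [MvPolynomial.totalDegree_neg, MvPolynomial.totalDegree_one]
    exact Nat.one_pos
  · intro M hM
    have h := col_sum_full hM j
    rw [map_add, map_sum, map_neg, map_one]
    simp only [MvPolynomial.eval_X]
    rw [h, add_neg_cancel]

/-- extension of a permutation by a fixed point -/
def extP {n : ℕ} (g : Equiv.Perm (Fin n)) : Equiv.Perm (Fin (n + 1)) :=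
  (finSuccEquivLast.trans (Equiv.optionCongr g)).trans finSuccEquivLast.symm

theorem extP_castSucc (g : Equiv.Perm (Fin n)) (a : Fin n) :
    extP g a.castSucc = (g a).castSucc := by
  simp [extP]

theorem stmt_NEAR (hRG : Stmt_RG) : Stmt_NEAR := by
  intro n m i hm hS
  refine transfer (MvPolynomial.rename (R := ℂ) (emb n m))
    (fun d f hf => hf.rename_isHomogeneous) (grI_rename emb_inj fun M hM => UZ_res hM) ?_ ?_
    (fun g => (extP g.1, g.2)) ?_ hS
  · intro d f hf hgr
    rw [hRG (n + 1) m (UZ (n + 1) m m) d _ hf.rename_isHomogeneous] at hgr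
    obtain ⟨q, hq, hv⟩ := hgr
    rw [hRG n m (UZ n m (m - 1)) d f hf]
    refine ⟨pi1 n m 1 q, ?_, fun M hM => ?_⟩
    · rcases hq with hq | hq
      · left
        rw [hq, map_zero]
      · right
        exact (totalDegree_aeval_le _ sub1_deg q).trans_lt hq
    · have h := hv _ (UZ_ext hm hM)
      rw [map_add, MvPolynomial.eval_rename] at h
      have h2 : ext1 M ∘ emb n m = M := by
        funext p
        exact ext1_castSucc M p.1 p.2
      rw [h2] at h
      rw [map_add, eval_pi1]
      exact h
  · intro d f' hf'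
    refine ⟨pi1 n m 0 f', ?_, ?_⟩
    · have h := hf'.aeval (sub1 n m 0) (n := 1) sub1_hom
      rw [one_mul] at h
      exact h
    · have h : (Ideal.Quotient.mkₐ ℂ (grI (UZ (n + 1) m m)))
          = (Ideal.Quotient.mkₐ ℂ (grI (UZ (n + 1) m m))).comp
            ((MvPolynomial.rename (R := ℂ) (emb n m)).comp (pi1 n m 0)) := by
        refine MvPolynomial.algHom_ext fun p => ?_
        obtain ⟨a, j⟩ := p
        rw [AlgHom.comp_apply, AlgHom.comp_apply, pi1, MvPolynomial.aeval_X]
        induction a using Fin.lastCases with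
        | last =>
          rw [sub1_last, MvPolynomial.C_0, zero_sub, map_neg, map_sum]
          simp only [MvPolynomial.rename_X]
          have h2 := col_mem (n := n) hRG j
          rw [Fin.sum_univ_castSucc] at h2
          refine Ideal.Quotient.eq.2 ?_
          have h3 : (MvPolynomial.X (Fin.last n, j) : Poly (n + 1) m)
              - -∑ x : Fin n, MvPolynomial.X (emb n m (x, j))
              = ∑ x : Fin n, MvPolynomial.X (x.castSucc, j)
                + MvPolynomial.X (Fin.last n, j) := by
            rw [sub_neg_eq_add, add_comm (MvPolynomial.X (Fin.last n, j))]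
            rfl
          rw [h3]
          exact h2
        | cast a =>
          rw [sub1_castSucc, MvPolynomial.rename_X]
          rfl
      have h2 := congrArg (fun F : Poly (n + 1) m →ₐ[ℂ] _ => F f') h
      exact Ideal.Quotient.eq.1 h2
  · intro g f
    unfold actP
    rw [MvPolynomial.rename_rename, MvPolynomial.rename_rename]
    congr 1
    congr 1
    funext p
    simp only [Function.comp, emb, extP_castSucc]

end Pool.RookLC.helper27
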