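import Pool.Agent.Work.MP_6f78fb_rk.Interface

/-!
# Transfer of `Surj` along an equivariant isomorphism of the graded rings
(used by the blocks TRS and NEAR)
-/

set_option autoImplicit false

open scoped BigOperators TensorProduct
open Classical

noncomputable section

namespace Pool.RookLC.helper27

theorem homComp_rename {n m n' m' : ℕ} (σ : Fin n × Fin m → Fin n' × Fin m') (f : Poly n m)
    (d : ℕ) : MvPolynomial.homogeneousComponent d (MvPolynomial.rename σ f) =
      MvPolynomial.rename σ (MvPolynomial.homogeneousComponent d f) := by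
  have h1 : ∀ e : ℕ, (MvPolynomial.rename σ
      (MvPolynomial.homogeneousComponent e f)).IsHomogeneous e :=
    fun e => (MvPolynomial.homogeneousComponent_isHomogeneous e f).rename_isHomogeneous
  conv_lhs => rw [← MvPolynomial.sum_homogeneousComponent f, map_sum, map_sum]
  by_cases hd : d ≤ f.totalDegree
  · rw [Finset.sum_eq_single d]
    · rw [MvPolynomial.homogeneousComponent_of_mem (h1 d), if_pos rfl]
    · intro e _ he
      rw [MvPolynomial.homogeneousComponent_of_mem (h1 e), if_neg (Ne.symm he)]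
    · intro h
      exact absurd (Finset.mem_range.2 (by omega)) h
  · rw [MvPolynomial.homogeneousComponent_eq_zero d f (by omega), map_zero]
    refine Finset.sum_eq_zero fun e he => ?_
    rw [MvPolynomial.homogeneousComponent_of_mem (h1 e), if_neg]
    rw [Finset.mem_range] at he
    omega

theorem totalDegree_rename {n m n' m' : ℕ} {σ : Fin n × Fin m → Fin n' × Fin m'}
    (hσ : Function.Injective σ) (f : Poly n m) :
    (MvPolynomial.rename σ f).totalDegree = f.totalDegree := by
  refine le_antisymm (MvPolynomial.totalDegree_rename_le _ f) ?_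
  unfold MvPolynomial.totalDegree
  refine Finset.sup_le fun s hs => ?_
  have h1 : Finsupp.mapDomain σ s ∈ (MvPolynomial.rename σ f).support := by
    rw [MvPolynomial.support_rename_of_injective hσ]
    exact Finset.mem_image_of_mem _ hs
  have h2 : (Finsupp.mapDomain σ s).sum (fun _ e => e) = s.sum fun _ e => e :=
    Finsupp.sum_mapDomain_index (fun _ => rfl) (fun _ _ _ => rfl)
  rw [← h2]
  exact Finset.le_sup (f := fun s : (Fin n' × Fin m') →₀ ℕ => s.sum fun _ e => e) h1

theorem topForm_rename {n m n' m' : ℕ} {σ : Fin n × Fin m → Fin n' × Fin m'}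
    (hσ : Function.Injective σ) (f : Poly n m) :
    topForm (MvPolynomial.rename σ f) = MvPolynomial.rename σ (topForm f) := by
  unfold topForm
  rw [totalDegree_rename hσ, homComp_rename]

theorem grI_rename {n m n' m' : ℕ} {σ : Fin n × Fin m → Fin n' × Fin m'}
    (hσ : Function.Injective σ) {Z : Set (Fin n × Fin m → ℂ)} {Z' : Set (Fin n' × Fin m' → ℂ)}
    (h : ∀ M ∈ Z', M ∘ σ ∈ Z) : grI Z ≤ (grI Z').comap (MvPolynomial.rename (R := ℂ) σ) := by
  unfold grI
  rw [Ideal.span_le]
  rintro _ ⟨f, hf, hf0, rfl⟩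
  rw [SetLike.mem_coe, Ideal.mem_comap, ← topForm_rename hσ]
  refine Ideal.subset_span ⟨MvPolynomial.rename σ f, ?_, ?_, rfl⟩
  · intro x hx
    rw [MvPolynomial.eval_rename]
    exact hf _ (h x hx)
  · intro h0
    exact hf0 ((map_eq_zero_iff _ (MvPolynomial.rename_injective _ hσ)).1 h0)

theorem transfer {n m r n' m' r' i : ℕ} (ι : Poly n m →ₐ[ℂ] Poly n' m')
    (h1 : ∀ (d : ℕ) (f : Poly n m), f.IsHomogeneous d → (ι f).IsHomogeneous d)
    (h2 : grI (UZ n m r) ≤ (grI (UZ n' m' r')).comap ι)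
    (h3 : ∀ (d : ℕ) (f : Poly n m), f.IsHomogeneous d → ι f ∈ grI (UZ n' m' r') →
      f ∈ grI (UZ n m r))
    (h4 : ∀ (d : ℕ) (f' : Poly n' m'), f'.IsHomogeneous d → ∃ f : Poly n m, f.IsHomogeneous d ∧
      f' - ι f ∈ grI (UZ n' m' r'))
    (φ : G n m → G n' m') (h5 : ∀ (g : G n m) (f : Poly n m), ι (actP g f) = actP (φ g) (ι f))
    (hS : Surj n' m' r' i) : Surj n m r i := by
  obtain ⟨ιR, hιR⟩ : ∃ ιR : RR n m r →ₐ[ℂ] RR n' m' r', ∀ f : Poly n m,
      ιR (Ideal.Quotient.mk (grI (UZ n m r)) f) = Ideal.Quotient.mk (grI (UZ n' m' r')) (ι f) :=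
    ⟨Ideal.quotientMapₐ (grI (UZ n' m' r')) ι h2, fun _ => rfl⟩
  have hmem : ∀ d, ∀ v ∈ V n m r d, ιR.toLinearMap v ∈ V n' m' r' d := by
    rintro d _ ⟨f, hf, rfl⟩
    rw [SetLike.mem_coe, MvPolynomial.mem_homogeneousSubmodule] at hf
    refine ⟨ι f, ?_, (hιR f).symm⟩
    rw [SetLike.mem_coe, MvPolynomial.mem_homogeneousSubmodule]
    exact h1 d f hf
  have hE : ∀ d, ∃ E : V n m r d ≃ₗ[ℂ] V n' m' r' d, ∀ g : G n m,
      E.toLinearMap ∘ₗ actV n m r d g = actV n' m' r' d (φ g) ∘ₗ E.toLinearMap := by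
    intro d
    let e : V n m r d →ₗ[ℂ] V n' m' r' d := ιR.toLinearMap.restrict (hmem d)
    have he : ∀ v : V n m r d, ((e v : V n' m' r' d) : RR n' m' r') = ιR (v : RR n m r) :=
      fun _ => rfl
    have hinj : Function.Injective e := by
      rw [injective_iff_map_eq_zero]
      rintro ⟨v, f, hf, rfl⟩ hv
      rw [SetLike.mem_coe, MvPolynomial.mem_homogeneousSubmodule] at hf
      have h6 := congrArg (fun x : V n' m' r' d => (x : RR n' m' r')) hv
      have h7 : ιR (Ideal.Quotient.mk (grI (UZ n m r)) f) = 0 := h6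
      rw [hιR, Ideal.Quotient.eq_zero_iff_mem] at h7
      have h8 := h3 d f hf h7
      apply Subtype.ext
      change Ideal.Quotient.mk (grI (UZ n m r)) f = 0
      rw [Ideal.Quotient.eq_zero_iff_mem]
      exact h8
    have hsur : Function.Surjective e := by
      rintro ⟨v, f', hf', rfl⟩
      rw [SetLike.mem_coe, MvPolynomial.mem_homogeneousSubmodule] at hf'
      obtain ⟨f, hf, hff⟩ := h4 d f' hf'
      refine ⟨⟨Ideal.Quotient.mk (grI (UZ n m r)) f, f, ?_, rfl⟩, ?_⟩
      · rw [SetLike.mem_coe, MvPolynomial.mem_homogeneousSubmodule]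
        exact hf
      · apply Subtype.ext
        rw [he]
        change ιR (Ideal.Quotient.mk (grI (UZ n m r)) f)
          = Ideal.Quotient.mk (grI (UZ n' m' r')) f'
        rw [hιR]
        exact (Ideal.Quotient.eq.2 hff).symm
    refine ⟨LinearEquiv.ofBijective e ⟨hinj, hsur⟩, fun g => ?_⟩
    refine LinearMap.ext fun v => ?_
    obtain ⟨v, f, hf, rfl⟩ := v
    apply Subtype.ext
    change ιR (actR n m r g (Ideal.Quotient.mk (grI (UZ n m r)) f))
      = actR n' m' r' (φ g) (ιR (Ideal.Quotient.mk (grI (UZ n m r)) f))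
    have h6 : ∀ (n m r : ℕ) (g : G n m) (f : Poly n m),
        actR n m r g (Ideal.Quotient.mk (grI (UZ n m r)) f)
          = Ideal.Quotient.mk (grI (UZ n m r)) (actP g f) := fun _ _ _ _ _ => rfl
    rw [h6, hιR, hιR, h6, h5]
  choose E hEg using hE
  obtain ⟨Φ, hΦ, hΦg⟩ := hS
  refine ⟨(TensorProduct.congr (E (i - 1)) (E (i + 1))).symm.toLinearMap ∘ₗ Φ ∘ₗ
    (TensorProduct.congr (E i) (E i)).toLinearMap, ?_, fun g => ?_⟩
  · rw [LinearMap.coe_comp, LinearMap.coe_comp]
    exact (TensorProduct.congr (E (i - 1)) (E (i + 1))).symm.surjective.comp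
      (hΦ.comp (TensorProduct.congr (E i) (E i)).surjective)
  · have h6 : ∀ a b : ℕ, (TensorProduct.congr (E a) (E b)).toLinearMap ∘ₗ
        TensorProduct.map (actV n m r a g) (actV n m r b g)
        = TensorProduct.map (actV n' m' r' a (φ g)) (actV n' m' r' b (φ g)) ∘ₗ
          (TensorProduct.congr (E a) (E b)).toLinearMap := by
      intro a b
      have h7 : (TensorProduct.congr (E a) (E b)).toLinearMap
          = TensorProduct.map (E a).toLinearMap (E b).toLinearMap := rfl
      rw [h7, ← TensorProduct.map_comp, ← TensorProduct.map_comp, hEg, hEg]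
    refine LinearMap.ext fun x => ?_
    have h7 := fun y => congrArg (fun L => L y) (h6 i i)
    have h8 := fun y => congrArg (fun L => L y) (h6 (i - 1) (i + 1))
    have h9 := fun y => congrArg (fun L => L y) (hΦg (φ g))
    simp only [LinearMap.comp_apply, LinearEquiv.coe_coe] at h7 h8 h9 ⊢
    rw [h7, h9, LinearEquiv.symm_apply_eq, h8, LinearEquiv.apply_symm_apply]

end Pool.RookLC.helper27
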